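import Pool.Agent.H61.SC.Ex
import Pool.Agent.H61.SC.Stmts

/-!
# Row ENB of project SC: energy of the averaged flow
-/

namespace Pool.SC

open Finset

theorem gr_fbar (a b : ℝ) (n H M : ℕ) (e : Ed) (T : Finset Ed) :
    gr e (fbar a b n H M) T
      = (∑ z ∈ Finset.range M, gr e (flow a b (sq n n) (z : ℤ) ((H : ℤ) + z)) T) / M := by
  unfold gr fbar
  rw [← sub_div, ← Finset.sum_sub_distrib]

/-- energy of the averaged flow over any set of edges -/
theorem enb_gen (hC : S_CUT) (hF : S_FLT) (p a b : ℝ) (hp0 : 0 < p) (hp1 : p < 1) (ha : 0 < a)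
    (hab : a < b) (n H M : ℕ) (hH : 1 ≤ H) (hM : 1 ≤ M) (F : Finset Ed) :
    ∑ e ∈ F, ex p F (fun T => gr e (fbar a b n H M) T ^ 2)
      ≤ (b - a) ^ 2 * (b / a * ((n : ℝ) * n)) / (1 - p) := by
  obtain ⟨K, hK⟩ : ∃ K, K = (b - a) ^ 2 * (b / a * ((n : ℝ) * n)) / (1 - p) := ⟨_, rfl⟩
  rw [← hK]
  have hz : ∀ z ∈ Finset.range M, ∑ e ∈ F,
      ex p F (fun T => gr e (flow a b (sq n n) (z : ℤ) ((H : ℤ) + z)) T ^ 2) ≤ K := by
    intro z _
    rw [hK]
    refine sum_ex_gr_sq_le hp0 hp1 fun s _ => ?_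
    have hlt : (z : ℤ) < (H : ℤ) + z := by omega
    obtain ⟨S0, h1, h2⟩ := hF (sq n n) (z : ℤ) ((H : ℤ) + z) hlt
    obtain ⟨-, -, -, -, -, -, h7⟩ := hC a b (sq n n) (z : ℤ) ((H : ℤ) + z) (fun _ => True)
      ((n : ℝ) * n) ha hab hlt ⟨S0, h1, trivial, by simpa [sq] using h2⟩
    exact h7 F s
  have hM0 : (0 : ℝ) < M := by exact_mod_cast hM
  have h1 : ∀ e ∈ F, ex p F (fun T => gr e (fbar a b n H M) T ^ 2)
      ≤ (∑ z ∈ Finset.range M,
        ex p F (fun T => gr e (flow a b (sq n n) (z : ℤ) ((H : ℤ) + z)) T ^ 2)) / M := by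
    intro e _
    rw [← ex_finsum, ← ex_div]
    refine ex_mono hp0.le hp1.le fun T _ => ?_
    rw [gr_fbar, div_pow, div_le_div_iff₀ (by positivity) hM0]
    have := sq_sum_le_card_mul_sum_sq (s := Finset.range M)
      (f := fun z : ℕ => gr e (flow a b (sq n n) (z : ℤ) ((H : ℤ) + z)) T)
    rw [Finset.card_range] at this
    calc _ ≤ ((M : ℝ) * ∑ z ∈ Finset.range M,
          gr e (flow a b (sq n n) (z : ℤ) ((H : ℤ) + z)) T ^ 2) * M :=
          mul_le_mul_of_nonneg_right this hM0.le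
      _ = _ := by ring
  refine (Finset.sum_le_sum h1).trans ?_
  rw [← Finset.sum_div, Finset.sum_comm, div_le_iff₀ hM0]
  refine (Finset.sum_le_sum hz).trans ?_
  rw [Finset.sum_const, Finset.card_range, nsmul_eq_mul, mul_comm]

theorem enb (hC : S_CUT) (hF : S_FLT) : S_ENB := by
  intro p a b hp0 hp1 ha hab
  have hq : 0 < 1 - p := by linarith
  have hb : 0 < b - a := by linarith
  have hb0 : 0 < b := by linarith
  refine ⟨(b - a) ^ 2 * (b / a) / (1 - p), by positivity, fun n H M _ hH hM => ?_⟩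
  refine (enb_gen hC hF p a b hp0 hp1 ha hab n H M hH hM _).trans (le_of_eq ?_)
  ring

end Pool.SC
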