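import Pool.Agent.H61.SC.Ex
import Pool.Agent.H61.SC.Stmts

/-!
# Row LS of project SC: logarithmic Sobolev inequality
-/

namespace Pool.SC

open Finset

theorem two_point_aux {A m : ℝ} (hA : 0 ≤ A) (hm : 0 < m) :
    A * Real.log A - A * Real.log m ≤ A * (A / m - 1) := by
  rcases hA.eq_or_lt with h | h
  · rw [← h]; simp
  · rw [← mul_sub, ← Real.log_div h.ne' hm.ne']
    exact mul_le_mul_of_nonneg_left (Real.log_le_sub_one_of_pos (div_pos h hm)) hA

theorem two_point {p A B : ℝ} (hp0 : 0 < p) (hp1 : p < 1) (hA : 0 ≤ A) (hB : 0 ≤ B) :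
    (1 - p) * (A * Real.log A) + p * (B * Real.log B)
      - ((1 - p) * A + p * B) * Real.log ((1 - p) * A + p * B)
      ≤ (Real.sqrt A - Real.sqrt B) ^ 2 := by
  have hq : 0 < 1 - p := by linarith
  obtain ⟨m, hm⟩ : ∃ m, m = (1 - p) * A + p * B := ⟨_, rfl⟩
  have hm0 : 0 ≤ m := by rw [hm]; positivity
  rw [← hm]
  rcases hm0.eq_or_lt with h | h
  · have h1 : (1 - p) * A = 0 := by
      have := mul_nonneg hq.le hA
      have := mul_nonneg hp0.le hB
      linarith
    have h2 : p * B = 0 := by linarith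
    have h3 : A = 0 := by
      rcases mul_eq_zero.1 h1 with h' | h'
      · linarith
      · exact h'
    have h4 : B = 0 := by
      rcases mul_eq_zero.1 h2 with h' | h'
      · linarith
      · exact h'
    rw [← h, h3, h4]
    simp
  · have e1 := mul_le_mul_of_nonneg_left (two_point_aux hA h) hq.le
    have e2 := mul_le_mul_of_nonneg_left (two_point_aux hB h) hp0.le
    have e3 : (1 - p) * (A * (A / m - 1)) + p * (B * (B / m - 1))
        = ((1 - p) * A ^ 2 + p * B ^ 2 - m * ((1 - p) * A + p * B)) / m := by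
      field_simp
      ring
    have e4 : (1 - p) * A ^ 2 + p * B ^ 2 - m * ((1 - p) * A + p * B)
        = p * (1 - p) * (A - B) ^ 2 := by
      rw [hm]; ring
    obtain ⟨x, hx0, hx⟩ : ∃ x, 0 ≤ x ∧ x = Real.sqrt A := ⟨_, Real.sqrt_nonneg _, rfl⟩
    obtain ⟨y, hy0, hy⟩ : ∃ y, 0 ≤ y ∧ y = Real.sqrt B := ⟨_, Real.sqrt_nonneg _, rfl⟩
    have hxA : A = x ^ 2 := by rw [hx, Real.sq_sqrt hA]
    have hyB : B = y ^ 2 := by rw [hy, Real.sq_sqrt hB]
    have e5 : p * (1 - p) * (A - B) ^ 2 / m ≤ (x - y) ^ 2 := by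
      rw [div_le_iff₀ h]
      have h6 : p * (1 - p) * (x + y) ^ 2 ≤ m := by
        rw [hm, hxA, hyB]
        nlinarith [sq_nonneg ((1 - p) * x - p * y)]
      calc p * (1 - p) * (A - B) ^ 2 = (x - y) ^ 2 * (p * (1 - p) * (x + y) ^ 2) := by
            rw [hxA, hyB]; ring
        _ ≤ (x - y) ^ 2 * m := mul_le_mul_of_nonneg_left h6 (sq_nonneg _)
    rw [← hx, ← hy]
    have e6 : (1 - p) * (A * Real.log A) + p * (B * Real.log B) - m * Real.log m
        = (1 - p) * (A * Real.log A - A * Real.log m)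
          + p * (B * Real.log B - B * Real.log m) := by
      have : m * Real.log m = ((1 - p) * A + p * B) * Real.log m := by rw [← hm]
      rw [this]; ring
    rw [e6]
    calc _ ≤ (1 - p) * (A * (A / m - 1)) + p * (B * (B / m - 1)) := add_le_add e1 e2
      _ = p * (1 - p) * (A - B) ^ 2 / m := by rw [e3, e4]
      _ ≤ _ := e5

theorem sqrt_sub_sq_le {α : Type*} [DecidableEq α] {p : ℝ} (hp0 : 0 ≤ p) (hp1 : p ≤ 1)
    (F : Finset α) (f g : Finset α → ℝ) :
    (Real.sqrt (ex p F (fun s => f s ^ 2)) - Real.sqrt (ex p F (fun s => g s ^ 2))) ^ 2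
      ≤ ex p F (fun s => (g s - f s) ^ 2) := by
  have hA : 0 ≤ ex p F (fun s => f s ^ 2) := ex_nonneg hp0 hp1 fun _ _ => sq_nonneg _
  have hB : 0 ≤ ex p F (fun s => g s ^ 2) := ex_nonneg hp0 hp1 fun _ _ => sq_nonneg _
  have h1 : ex p F (fun s => (g s - f s) ^ 2)
      = ex p F (fun s => g s ^ 2) + ex p F (fun s => f s ^ 2)
        - 2 * ex p F (fun s => f s * g s) := by
    rw [← ex_add, ← ex_mul_left, ← ex_sub]
    exact ex_congr fun s _ => by ring
  have h2 : ex p F (fun s => f s * g s)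
      ≤ Real.sqrt (ex p F (fun s => f s ^ 2)) * Real.sqrt (ex p F (fun s => g s ^ 2)) := by
    rw [← Real.sqrt_mul hA]
    exact Real.le_sqrt_of_sq_le (ex_cs hp0 hp1 f g)
  rw [h1]
  nlinarith [Real.sq_sqrt hA, Real.sq_sqrt hB]

theorem ls : S_LS := by
  intro α _ p hp0 hp1 F
  induction F using Finset.induction_on with
  | empty => intro g; simp [ex_empty]
  | insert e F he ih =>
    intro g
    have hA : 0 ≤ ex p F (fun s => g s ^ 2) := ex_nonneg hp0.le hp1.le fun _ _ => sq_nonneg _
    have hB : 0 ≤ ex p F (fun s => g (insert e s) ^ 2) :=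
      ex_nonneg hp0.le hp1.le fun _ _ => sq_nonneg _
    have i0 := ih g
    have i1 := ih (fun s => g (insert e s))
    have i2 := two_point hp0 hp1 hA hB
    have i3 := sqrt_sub_sq_le hp0.le hp1.le F g (fun s => g (insert e s))
    beta_reduce at i1 i2 i3
    have hge : ex p (insert e F) (fun s => gr e g s ^ 2)
        = ex p F (fun s => (g (insert e s) - g s) ^ 2) := by
      rw [ex_insert he]
      have a1 : ex p F (fun s => gr e g s ^ 2)
          = ex p F (fun s => (g (insert e s) - g s) ^ 2) := by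
        refine ex_congr fun s hs => ?_
        rw [gr, Finset.erase_eq_of_notMem fun h => he (hs h)]
      have a2 : ex p F (fun s => gr e g (insert e s) ^ 2)
          = ex p F (fun s => (g (insert e s) - g s) ^ 2) := by
        rw [← a1]
        refine ex_congr fun s _ => ?_
        rw [gr_insert]
      rw [a1, a2]; ring
    have hgs : ∀ e' ∈ F, ex p (insert e F) (fun s => gr e' g s ^ 2)
        = (1 - p) * ex p F (fun s => gr e' g s ^ 2)
          + p * ex p F (fun s => gr e' (fun s => g (insert e s)) s ^ 2) := by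
      intro e' he'
      rw [ex_insert he]
      congr 2
      refine ex_congr fun s _ => ?_
      have hne : e ≠ e' := fun h => he (h ▸ he')
      rw [gr, gr, Finset.erase_insert_of_ne hne, Finset.insert_comm]
    rw [Finset.sum_insert he, hge, Finset.sum_congr rfl hgs, Finset.sum_add_distrib,
      ← Finset.mul_sum, ← Finset.mul_sum, ex_insert he, ex_insert he]
    have j0 := mul_le_mul_of_nonneg_left i0 (by linarith : (0 : ℝ) ≤ 1 - p)
    have j1 := mul_le_mul_of_nonneg_left i1 hp0.le
    have j2 : 0 ≤ ex p F (fun s => (g (insert e s) - g s) ^ 2) :=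
      ex_nonneg hp0.le hp1.le fun _ _ => sq_nonneg _
    linarith

end Pool.SC
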