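import Pool.Agent.H61.SC.Ex
import Pool.Agent.H61.SC.Stmts

/-!
# Rows HO and M4 of project SC
-/

namespace Pool.SC

open Finset

theorem ho : S_HO := by
  intro α _ p hp0 hp1 F D
  have h1 : (ex p F (fun s => D s ^ 2)) ^ 2
      ≤ ex p F (fun s => |D s|) * ex p F (fun s => |D s| ^ 3) := by
    have := ex_cs (F := F) hp0.le hp1.le (fun s => Real.sqrt |D s|)
      (fun s => Real.sqrt |D s| * |D s|)
    have e1 : ex p F (fun s => Real.sqrt |D s| * (Real.sqrt |D s| * |D s|))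
        = ex p F (fun s => D s ^ 2) := by
      refine ex_congr fun s _ => ?_
      have := Real.mul_self_sqrt (abs_nonneg (D s))
      calc Real.sqrt |D s| * (Real.sqrt |D s| * |D s|)
          = (Real.sqrt |D s| * Real.sqrt |D s|) * |D s| := by ring
        _ = D s ^ 2 := by rw [this, abs_mul_abs_self]; ring
    have e2 : ex p F (fun s => Real.sqrt |D s| ^ 2) = ex p F (fun s => |D s|) :=
      ex_congr fun s _ => Real.sq_sqrt (abs_nonneg _)
    have e3 : ex p F (fun s => (Real.sqrt |D s| * |D s|) ^ 2)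
        = ex p F (fun s => |D s| ^ 3) := by
      refine ex_congr fun s _ => ?_
      rw [mul_pow, Real.sq_sqrt (abs_nonneg _)]
      ring
    rwa [e1, e2, e3] at this
  have h2 : (ex p F (fun s => |D s| ^ 3)) ^ 2
      ≤ ex p F (fun s => D s ^ 2) * ex p F (fun s => D s ^ 4) := by
    have := ex_cs (F := F) hp0.le hp1.le (fun s => |D s|) (fun s => D s ^ 2)
    have e1 : ex p F (fun s => |D s| * D s ^ 2) = ex p F (fun s => |D s| ^ 3) := by
      refine ex_congr fun s _ => ?_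
      rw [← sq_abs (D s)]
      ring
    have e2 : ex p F (fun s => |D s| ^ 2) = ex p F (fun s => D s ^ 2) :=
      ex_congr fun s _ => sq_abs _
    have e3 : ex p F (fun s => (D s ^ 2) ^ 2) = ex p F (fun s => D s ^ 4) :=
      ex_congr fun s _ => by ring
    rwa [e1, e2, e3] at this
  have hX : 0 ≤ ex p F (fun s => D s ^ 2) := ex_nonneg hp0.le hp1.le fun _ _ => sq_nonneg _
  have hY : 0 ≤ ex p F (fun s => |D s|) := ex_nonneg hp0.le hp1.le fun _ _ => abs_nonneg _
  have hZ : 0 ≤ ex p F (fun s => |D s| ^ 3) :=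
    ex_nonneg hp0.le hp1.le fun _ _ => pow_nonneg (abs_nonneg _) _
  have hW : 0 ≤ ex p F (fun s => D s ^ 4) :=
    ex_nonneg hp0.le hp1.le fun _ _ => by positivity
  generalize ex p F (fun s => D s ^ 2) = X at *
  generalize ex p F (fun s => |D s|) = Y at *
  generalize ex p F (fun s => |D s| ^ 3) = Z at *
  generalize ex p F (fun s => D s ^ 4) = W at *
  rcases hX.eq_or_lt with h | h
  · rw [← h]
    have := mul_nonneg (sq_nonneg Y) hW
    simpa using this
  · have h3 : X * X ^ 3 ≤ X * (Y ^ 2 * W) := by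
      calc X * X ^ 3 = (X ^ 2) ^ 2 := by ring
        _ ≤ (Y * Z) ^ 2 := pow_le_pow_left₀ (sq_nonneg _) h1 2
        _ = Y ^ 2 * Z ^ 2 := by ring
        _ ≤ Y ^ 2 * (X * W) := mul_le_mul_of_nonneg_left h2 (sq_nonneg _)
        _ = X * (Y ^ 2 * W) := by ring
    exact le_of_mul_le_mul_left h3 h

theorem m4 (hES : S_ES) : S_M4 := by
  intro α _ p hp0 hp1 F f K L hK hL hsum hgr
  have hq : 0 < 1 - p := by linarith
  obtain ⟨m, hm⟩ : ∃ m, m = ex p F f := ⟨_, rfl⟩
  obtain ⟨K1, hK1⟩ : ∃ K1, K1 = K / (1 - p) := ⟨_, rfl⟩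
  have hK10 : 0 ≤ K1 := by rw [hK1]; positivity
  have hvar : ex p F (fun s => (f s - m) ^ 2) ≤ K1 := by
    have := (hES α p hp0 hp1 F f).trans (sum_ex_gr_sq_le hp0 hp1 hsum)
    rw [hm, hK1]
    exact this
  have hvar0 : 0 ≤ ex p F (fun s => (f s - m) ^ 2) :=
    ex_nonneg hp0.le hp1.le fun _ _ => sq_nonneg _
  have hg := hES α p hp0 hp1 F (fun s => (f s - m) ^ 2)
  rw [va_eq] at hg
  have hb : ∀ e ∈ F, ex p F (fun s => gr e (fun s => (f s - m) ^ 2) s ^ 2)
      ≤ (1 - p)⁻¹ * ex p F (fun s => if e ∈ s then 0 else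
          gr e f s ^ 2 * (8 * (f s - m) ^ 2 + 2 * L ^ 2)) := by
    intro e he
    have h1 := ex_gr he hp1 (fun s => (f s - m) ^ 2) (fun x => x ^ 2)
    rw [h1]
    refine mul_le_mul_of_nonneg_left ?_ (inv_nonneg.2 hq.le)
    refine ex_mono hp0.le hp1.le fun s hs => ?_
    by_cases hes : e ∈ s
    · simp [hes]
    · simp only [if_neg hes]
      have h2 : gr e (fun s => (f s - m) ^ 2) s = gr e f s * (2 * (f s - m) + gr e f s) := by
        simp only [gr, Finset.erase_eq_of_notMem hes]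
        ring
      have h3 : gr e f s ^ 2 ≤ L ^ 2 := by
        rw [← sq_abs]
        exact pow_le_pow_left₀ (abs_nonneg _) (hgr s hs e he) 2
      rw [h2, mul_pow]
      refine mul_le_mul_of_nonneg_left ?_ (sq_nonneg _)
      nlinarith [sq_nonneg (2 * (f s - m) - gr e f s)]
  have hs : ∑ e ∈ F, ex p F (fun s => gr e (fun s => (f s - m) ^ 2) s ^ 2)
      ≤ K1 * (8 * K1 + 2 * L ^ 2) := by
    refine (Finset.sum_le_sum hb).trans ?_
    rw [← Finset.mul_sum, ← ex_finsum]
    have h4 : ex p F (fun s => ∑ e ∈ F, (if e ∈ s then 0 else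
          gr e f s ^ 2 * (8 * (f s - m) ^ 2 + 2 * L ^ 2)))
        ≤ ex p F (fun s => K * (8 * (f s - m) ^ 2 + 2 * L ^ 2)) := by
      refine ex_mono hp0.le hp1.le fun s hs => ?_
      have : ∑ e ∈ F, (if e ∈ s then 0 else gr e f s ^ 2 * (8 * (f s - m) ^ 2 + 2 * L ^ 2))
          = (∑ e ∈ F \ s, gr e f s ^ 2) * (8 * (f s - m) ^ 2 + 2 * L ^ 2) := by
        rw [Finset.sdiff_eq_filter, Finset.sum_filter, Finset.sum_mul]
        refine Finset.sum_congr rfl fun e _ => ?_
        by_cases h : e ∈ s <;> simp [h]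
      rw [this]
      exact mul_le_mul_of_nonneg_right (hsum s hs) (by positivity)
    have h5 : ex p F (fun s => K * (8 * (f s - m) ^ 2 + 2 * L ^ 2))
        = K * (8 * ex p F (fun s => (f s - m) ^ 2) + 2 * L ^ 2) := by
      rw [ex_mul_left, ex_add, ex_mul_left, ex_const]
    rw [h5] at h4
    calc _ ≤ (1 - p)⁻¹ * (K * (8 * ex p F (fun s => (f s - m) ^ 2) + 2 * L ^ 2)) :=
          mul_le_mul_of_nonneg_left h4 (inv_nonneg.2 hq.le)
      _ = K1 * (8 * ex p F (fun s => (f s - m) ^ 2) + 2 * L ^ 2) := by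
          rw [hK1, div_eq_inv_mul]; ring
      _ ≤ _ := by
          refine mul_le_mul_of_nonneg_left ?_ hK10
          linarith
  have h6 : ex p F (fun s => ((f s - m) ^ 2) ^ 2) = ex p F (fun s => (f s - m) ^ 4) :=
    ex_congr fun s _ => by ring
  rw [h6] at hg
  rw [← hm, ← hK1]
  have h7 : (ex p F (fun s => (f s - m) ^ 2)) ^ 2 ≤ K1 ^ 2 := pow_le_pow_left₀ hvar0 hvar 2
  nlinarith [mul_nonneg hK10 (sq_nonneg L), sq_nonneg K1, sq_nonneg (L ^ 2)]

end Pool.SC
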